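import Mathlib

set_option autoImplicit false

/-!
# Intersection sets of a semigroup: definitions

A decreasing sequence `A_1 ⊇ A_2 ⊇ …` of subsets of a semigroup is written `A : ℕ → Set S`
(with `A q` in the place of `A_{q+1}`).
-/

namespace Pool.Agent.Helper58.SemigroupH

universe u

variable {S : Type u} [Semigroup S]

/-- The `h`-tuples `(a_1, …, a_h)` of elements of `S` with `a_1 a_2 ⋯ a_h = x`; the product is
computed in `S` with an identity adjoined. -/
def tuples (h : ℕ) (x : S) : Set (Fin h → S) :=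
  {a | (List.ofFn fun i => ((a i : S) : WithOne S)).prod = (x : WithOne S)}

/-- `A^h = {a_1 ⋯ a_h : a_i ∈ A}`. -/
def powSet (A : Set S) (h : ℕ) : Set S :=
  {x | ∃ a ∈ tuples h x, ∀ i, a i ∈ A}

/-- Asymptotically strictly decreasing sequences of subsets of `S`. -/
def AsympStrictlyDecreasing (A : ℕ → Set S) : Prop :=
  (∀ q, A (q + 1) ⊆ A q) ∧ {q : ℕ | A (q + 1) ≠ A q}.Infinite

/-- The intersection set `H(A_q)` of a sequence: all `h ≥ 1` with `A^h = ⋂ A_q^h`, where
`A = ⋂ A_q`. -/
def intersectionSet (A : ℕ → Set S) : Set ℕ :=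
  {h | 1 ≤ h ∧ powSet (⋂ q, A q) h = ⋂ q, powSet (A q) h}

/-- The collection of the intersection sets of all asymptotically strictly decreasing sequences. -/
def HStar (S : Type u) [Semigroup S] : Set (Set ℕ) :=
  {H | ∃ A : ℕ → Set S, AsympStrictlyDecreasing A ∧ intersectionSet A = H}

/-- Property 1: for some `h₀ ≥ 1` and all `h ≥ h₀` some `x` has infinitely many representations
`x = a_1 ⋯ a_h`. -/
def Property1 (S : Type u) [Semigroup S] : Prop :=
  ∃ h₀ : ℕ, 1 ≤ h₀ ∧ ∀ h : ℕ, h₀ ≤ h → ∃ x : S, (tuples h x).Infinite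

/-- Property 2: the only intersection set is the set of all positive integers. -/
def Property2 (S : Type u) [Semigroup S] : Prop :=
  HStar S = {{h : ℕ | 1 ≤ h}}

end Pool.Agent.Helper58.SemigroupH
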