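import Mathlib
import Pool.Agent.Helper58.SemigroupH.Defs

set_option autoImplicit false

namespace Pool.Agent.Helper58.SemigroupH

universe u

variable {S : Type u} [Semigroup S]

/-! ## Lists -/

/-- Product of a list of elements of `S` in `S` with an identity adjoined. -/
def lprod (l : List S) : WithOne S := (l.map (fun a => ((a : S) : WithOne S))).prod

@[simp] lemma lprod_nil : lprod ([] : List S) = 1 := rfl

@[simp] lemma lprod_cons (a : S) (l : List S) : lprod (a :: l) = (a : WithOne S) * lprod l := by
  simp [lprod]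

@[simp] lemma lprod_append (l l' : List S) : lprod (l ++ l') = lprod l * lprod l' := by
  simp [lprod]

lemma mem_powSet_iff {A : Set S} {h : ℕ} {x : S} :
    x ∈ powSet A h ↔ ∃ l : List S, l.length = h ∧ (∀ a ∈ l, a ∈ A) ∧ lprod l = (x : WithOne S) := by
  constructor
  · rintro ⟨a, ha, hA⟩
    refine ⟨List.ofFn a, by simp, ?_, ?_⟩
    · intro b hb
      rw [List.mem_ofFn] at hb
      obtain ⟨i, rfl⟩ := hb
      exact hA i
    · unfold tuples at ha
      rw [Set.mem_ofPred_eq] at ha
      rw [← ha, lprod, List.map_ofFn]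
      rfl
  · rintro ⟨l, rfl, hA, hl⟩
    refine ⟨l.get, ?_, fun i => hA _ (l.get_mem i)⟩
    unfold tuples
    rw [Set.mem_ofPred_eq, ← hl, lprod]
    congr 1
    conv_rhs => rw [← List.ofFn_get l]
    rw [List.map_ofFn]
    rfl

lemma lprod_eq_coe {l : List S} (hl : l ≠ []) : ∃ c : S, lprod l = (c : WithOne S) := by
  induction l with
  | nil => exact absurd rfl hl
  | cons a l ih =>
    by_cases h : l = []
    · subst h
      exact ⟨a, by simp⟩
    · obtain ⟨c, hc⟩ := ih h
      exact ⟨a * c, by rw [lprod_cons, hc, WithOne.coe_mul]⟩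

lemma powSet_mul {A : Set S} {m n : ℕ} {x y : S} (hx : x ∈ powSet A m) (hy : y ∈ powSet A n) :
    x * y ∈ powSet A (m + n) := by
  rw [mem_powSet_iff] at *
  obtain ⟨l, h1, h2, h3⟩ := hx
  obtain ⟨l', h1', h2', h3'⟩ := hy
  refine ⟨l ++ l', by simp [h1, h1'], ?_, by rw [lprod_append, h3, h3', WithOne.coe_mul]⟩
  intro a ha
  rcases List.mem_append.mp ha with h | h
  · exact h2 a h
  · exact h2' a h

lemma mem_powSet_one {A : Set S} {x : S} : x ∈ powSet A 1 ↔ x ∈ A := by
  rw [mem_powSet_iff]
  constructor
  · rintro ⟨l, h1, h2, h3⟩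
    obtain ⟨a, rfl⟩ := List.length_eq_one_iff.mp h1
    simp only [lprod_cons, lprod_nil, mul_one, WithOne.coe_inj] at h3
    subst h3
    exact h2 a (by simp)
  · intro hx
    exact ⟨[x], by simp, by simpa using hx, by simp⟩

lemma powSet_mono {A B : Set S} (h : A ⊆ B) (n : ℕ) : powSet A n ⊆ powSet B n := by
  rintro x ⟨a, ha, hA⟩
  exact ⟨a, ha, fun i => h (hA i)⟩

lemma mem_powSet_zero {A : Set S} {x : S} : x ∉ powSet A 0 := by
  rw [mem_powSet_iff]
  rintro ⟨l, h1, -, h3⟩
  rw [List.length_eq_zero_iff] at h1
  subst h1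
  simp at h3

/-- Splitting off the last factor. -/
lemma powSet_succ {A : Set S} {n : ℕ} (hn : 1 ≤ n) {x : S} (hx : x ∈ powSet A (n + 1)) :
    ∃ y ∈ powSet A n, ∃ b ∈ A, y * b = x := by
  rw [mem_powSet_iff] at hx
  obtain ⟨l, h1, h2, h3⟩ := hx
  have hne : l ≠ [] := by
    intro h
    rw [h] at h1
    simp at h1
  have hsplit := List.dropLast_append_getLast hne
  have hne' : l.dropLast ≠ [] := by
    intro h
    have := congrArg List.length h
    rw [List.length_dropLast] at this
    simp at this
    omega
  obtain ⟨y, hy⟩ := lprod_eq_coe hne'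
  refine ⟨y, ?_, l.getLast hne, h2 _ (List.getLast_mem hne), ?_⟩
  · rw [mem_powSet_iff]
    refine ⟨l.dropLast, by rw [List.length_dropLast]; omega, ?_, hy⟩
    intro a ha
    exact h2 a (List.mem_of_mem_dropLast ha)
  · rw [← hsplit, lprod_append, hy] at h3
    simp only [lprod_cons, lprod_nil, mul_one] at h3
    rw [← WithOne.coe_mul, WithOne.coe_inj] at h3
    exact h3

lemma powSet_two_singleton {c x : S} (h : x ∈ powSet {c} 2) : x = c * c := by
  obtain ⟨y, hy, b, hb, hyb⟩ := powSet_succ (n := 1) le_rfl h
  rw [mem_powSet_one] at hy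
  rw [← hyb, show y = c from hy, show b = c from hb]

/-! ## Consequences of the two finiteness conditions -/

/-- The two finiteness conditions. -/
def Cond (S : Type u) [Semigroup S] : Prop :=
  (∀ x : S, {c : S | c * c = x}.Finite) ∧
    ∀ x : S, {p : S × S | p.1 * p.2 = x ∧ p.1 * p.1 ≠ x ∧ p.2 * p.2 ≠ x}.Finite

lemma infinite_fiber {α β : Type*} {s : Set α} (hs : s.Infinite) (f : α → β) {t : Set β}
    (ht : t.Finite) (hf : ∀ a ∈ s, f a ∈ t) : ∃ b ∈ t, {a ∈ s | f a = b}.Infinite := by
  by_contra hcon
  push Not at hcon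
  apply hs
  have : s ⊆ ⋃ b ∈ t, {a ∈ s | f a = b} := by
    intro a ha
    simp only [Set.mem_iUnion]
    exact ⟨f a, hf a ha, ha, rfl⟩
  exact (ht.biUnion fun b hb => hcon b hb).subset this

lemma row (hC : Cond S) {c x : S} (h : {b : S | c * b = x}.Infinite) : c * c = x := by
  by_contra hne
  apply h
  have h1 : {b : S | b * b = x}.Finite := hC.1 x
  have h2 : {b : S | c * b = x ∧ b * b ≠ x}.Finite := by
    have := (hC.2 x).preimage (f := fun b : S => (c, b))
      (fun a _ b _ hab => (Prod.mk.inj hab).2)
    refine this.subset ?_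
    rintro b ⟨hb1, hb2⟩
    exact ⟨hb1, hne, hb2⟩
  refine (h1.union h2).subset ?_
  intro b hb
  by_cases hbb : b * b = x
  · exact Or.inl hbb
  · exact Or.inr ⟨hb, hbb⟩

lemma col (hC : Cond S) {c x : S} (h : {b : S | b * c = x}.Infinite) : c * c = x := by
  by_contra hne
  apply h
  have h1 : {b : S | b * b = x}.Finite := hC.1 x
  have h2 : {b : S | b * c = x ∧ b * b ≠ x}.Finite := by
    have := (hC.2 x).preimage (f := fun b : S => (b, c))
      (fun a _ b _ hab => (Prod.mk.inj hab).1)
    refine this.subset ?_
    rintro b ⟨hb1, hb2⟩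
    exact ⟨hb1, hb2, hne⟩
  refine (h1.union h2).subset ?_
  intro b hb
  by_cases hbb : b * b = x
  · exact Or.inl hbb
  · exact Or.inr ⟨hb, hbb⟩

lemma squares_infinite (hC : Cond S) {B : Set S} (hB : B.Infinite) :
    ((fun b => b * b) '' B).Infinite := by
  intro hfin
  obtain ⟨t, -, ht⟩ := infinite_fiber hB (fun b => b * b) hfin
    (fun a ha => Set.mem_image_of_mem _ ha)
  exact ht ((hC.1 t).subset fun b hb => hb.2)

lemma row_cube (hC : Cond S) {c x : S} (h : {b : S | c * b = x}.Infinite) :
    c * c * c = c * c := by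
  have hx := row hC h
  have h1 := squares_infinite hC h
  have h2 : {w : S | c * w = c * c * c}.Infinite := by
    refine h1.mono ?_
    rintro _ ⟨b, hb, rfl⟩
    change c * b = x at hb
    change c * (b * b) = c * c * c
    rw [← mul_assoc, hb, ← hx, mul_assoc, hb, ← hx, mul_assoc]
  exact (row hC h2).symm

lemma col_cube (hC : Cond S) {c x : S} (h : {b : S | b * c = x}.Infinite) :
    c * c * c = c * c := by
  have hx := col hC h
  have h1 := squares_infinite hC h
  have h2 : {w : S | w * c = c * c * c}.Infinite := by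
    refine h1.mono ?_
    rintro _ ⟨b, hb, rfl⟩
    change b * c = x at hb
    change b * b * c = c * c * c
    rw [mul_assoc, hb, ← hx, ← mul_assoc, hb, ← hx]
  exact (col hC h2).symm

lemma powSet_of_cube {A : Set S} {c : S} (hc : c ∈ A) (h : c * c * c = c * c) :
    ∀ n, c * c ∈ powSet A (n + 2) := by
  intro n
  induction n with
  | zero =>
    have := powSet_mul (mem_powSet_one.mpr hc) (mem_powSet_one.mpr hc)
    exact this
  | succ n ih =>
    have := powSet_mul ih (mem_powSet_one.mpr hc)
    rw [h] at this
    exact this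

lemma absorb (hC : Cond S) {A : Set S} (l : List S) (hl : l ≠ []) (hA : ∀ a ∈ l, a ∈ A) :
    ∀ {c x : S}, lprod l = (c : WithOne S) → {b : S | c * b = x}.Infinite →
      x ∈ powSet A (l.length + 1) := by
  induction l with
  | nil => exact absurd rfl hl
  | cons a l ih =>
    intro c x hc hinf
    have haA : a ∈ A := hA a (by simp)
    by_cases h : l = []
    · subst h
      simp only [lprod_cons, lprod_nil, mul_one, WithOne.coe_inj] at hc
      subst hc
      rw [← row hC hinf]
      exact powSet_mul (mem_powSet_one.mpr haA) (mem_powSet_one.mpr haA)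
    · obtain ⟨c', hc'⟩ := lprod_eq_coe h
      have hcc : c = a * c' := by
        rw [lprod_cons, hc', ← WithOne.coe_mul, WithOne.coe_inj] at hc
        exact hc.symm
      by_cases hfib : ∃ w, {b ∈ {b : S | c * b = x} | c' * b = w}.Infinite
      · obtain ⟨w, hw⟩ := hfib
        have h1 : {b : S | c' * b = w}.Infinite := hw.mono fun b hb => hb.2
        have h2 := ih h (fun a ha => hA a (by simp [ha])) hc' h1
        obtain ⟨b, hb1, hb2⟩ := hw.nonempty
        have hx : x = a * w := by
          rw [← hb2, ← mul_assoc, ← hcc]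
          exact hb1.symm
        rw [hx, List.length_cons, add_comm l.length 1, add_assoc]
        exact powSet_mul (mem_powSet_one.mpr haA) h2
      · push Not at hfib
        have himg : ((fun b => c' * b) '' {b : S | c * b = x}).Infinite := by
          intro hfin
          obtain ⟨w, -, hw⟩ := infinite_fiber hinf (fun b => c' * b) hfin
            (fun a ha => Set.mem_image_of_mem _ ha)
          exact hw (hfib w)
        have h1 : {w : S | a * w = x}.Infinite := by
          refine himg.mono ?_
          rintro _ ⟨b, hb, rfl⟩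
          change a * (c' * b) = x
          rw [← mul_assoc, ← hcc]
          exact hb
        have h2 := row_cube hC h1
        have h3 := row hC h1
        rw [← h3, List.length_cons]
        have hlen : 1 ≤ l.length := List.length_pos_iff.mpr h
        obtain ⟨n, hn⟩ : ∃ n, l.length + 1 + 1 = n + 2 := ⟨l.length, rfl⟩
        rw [hn]
        exact powSet_of_cube haA h2 n

omit [Semigroup S] in
lemma antitone_of {A : ℕ → Set S} (hA : ∀ q, A (q + 1) ⊆ A q) : Antitone A :=
  antitone_nat_of_succ_le hA

omit [Semigroup S] in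
lemma mem_iInter_of_infinite {A : ℕ → Set S} (hA : Antitone A) {s : S} {Q : Set ℕ}
    (hQ : Q.Infinite) (h : ∀ q ∈ Q, s ∈ A q) : s ∈ ⋂ q, A q := by
  rw [Set.mem_iInter]
  intro q
  obtain ⟨q', hq', hlt⟩ := hQ.exists_gt q
  exact hA hlt.le (h q' hq')

/-- Under the two finiteness conditions every positive integer is in every intersection set. -/
lemma iInter_powSet (hC : Cond S) {A : ℕ → Set S} (hA : Antitone A) :
    ∀ n, ∀ x, x ∈ ⋂ q, powSet (A q) (n + 1) → x ∈ powSet (⋂ q, A q) (n + 1) := by
  intro n
  induction n with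
  | zero =>
    intro x hx
    rw [zero_add, mem_powSet_one, Set.mem_iInter]
    intro q
    have := Set.mem_iInter.mp hx q
    rwa [zero_add, mem_powSet_one] at this
  | succ n ih =>
    intro x hx
    have hx' : ∀ q, ∃ y ∈ powSet (A q) (n + 1), ∃ b ∈ A q, y * b = x := fun q =>
      powSet_succ (by omega) (Set.mem_iInter.mp hx q)
    choose y hy b hb hyb using hx'
    have hpow : Antitone fun q => powSet (A q) (n + 1) := fun p q hpq => powSet_mono (hA hpq) _
    by_cases hfib : ∃ g : S × S, {q | (y q, b q) = g}.Infinite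
    · obtain ⟨⟨y₀, b₀⟩, hg⟩ := hfib
      have h1 : y₀ ∈ ⋂ q, powSet (A q) (n + 1) :=
        mem_iInter_of_infinite hpow hg fun q hq => by
          rw [← (Prod.mk.inj hq).1]; exact hy q
      have h2 : b₀ ∈ ⋂ q, A q := mem_iInter_of_infinite hA hg fun q hq => by
        rw [← (Prod.mk.inj hq).2]; exact hb q
      obtain ⟨q, hq⟩ := hg.nonempty
      have h3 : y₀ * b₀ = x := by
        rw [← (Prod.mk.inj hq).1, ← (Prod.mk.inj hq).2]; exact hyb q
      rw [← h3]
      exact powSet_mul (ih y₀ h1) (mem_powSet_one.mpr h2)
    · push Not at hfib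
      have hfin : {q | y q * y q ≠ x ∧ b q * b q ≠ x}.Finite := by
        by_contra hinf
        obtain ⟨g, -, hg⟩ := infinite_fiber (s := {q | y q * y q ≠ x ∧ b q * b q ≠ x}) hinf
          (fun q => (y q, b q)) (hC.2 x) (fun q hq => ⟨hyb q, hq.1, hq.2⟩)
        exact hg ((hfib g).subset fun q hq => hq.2)
      have hinf : {q | b q * b q = x}.Infinite ∨ {q | y q * y q = x}.Infinite := by
        by_contra hcon
        push Not at hcon
        have hun := (hfin.union (hcon.1.union hcon.2))
        apply Set.infinite_univ (α := ℕ)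
        refine hun.subset ?_
        intro q _
        by_cases h1 : b q * b q = x
        · exact Or.inr (Or.inl h1)
        · by_cases h2 : y q * y q = x
          · exact Or.inr (Or.inr h2)
          · exact Or.inl ⟨h2, h1⟩
      rcases hinf with hinf | hinf
      · obtain ⟨c, hc, hQ⟩ := infinite_fiber hinf b (hC.1 x) (fun q hq => hq)
        have hcA : c ∈ ⋂ q, A q := mem_iInter_of_infinite hA hQ fun q hq => by
          rw [← hq.2]; exact hb q
        have hcol : {z : S | z * c = x}.Infinite := by
          intro hfin'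
          obtain ⟨z, -, hz⟩ := infinite_fiber hQ y hfin' (fun q hq => by
            change y q * c = x
            rw [← hq.2]; exact hyb q)
          refine hz ((hfib (z, c)).subset ?_)
          rintro q ⟨⟨-, hq1⟩, hq2⟩
          change (y q, b q) = (z, c)
          rw [hq1, hq2]
        rw [← col hC hcol]
        exact powSet_of_cube hcA (col_cube hC hcol) n
      · obtain ⟨c, hc, hQ⟩ := infinite_fiber hinf y (hC.1 x) (fun q hq => hq)
        have hcA : c ∈ ⋂ q, powSet (A q) (n + 1) :=
          mem_iInter_of_infinite hpow hQ fun q hq => by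
            rw [← hq.2]; exact hy q
        have hc1 := ih c hcA
        have hrow : {z : S | c * z = x}.Infinite := by
          intro hfin'
          obtain ⟨z, -, hz⟩ := infinite_fiber hQ b hfin' (fun q hq => by
            change c * b q = x
            rw [← hq.2]; exact hyb q)
          refine hz ((hfib (c, z)).subset ?_)
          rintro q ⟨⟨-, hq1⟩, hq2⟩
          change (y q, b q) = (c, z)
          rw [hq1, hq2]
        rw [mem_powSet_iff] at hc1
        obtain ⟨l, hl1, hl2, hl3⟩ := hc1
        have := absorb hC l (by rintro rfl; simp at hl1) hl2 hl3 hrow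
        rwa [hl1] at this

lemma intersectionSet_eq (hC : Cond S) {A : ℕ → Set S} (hA : ∀ q, A (q + 1) ⊆ A q) :
    intersectionSet A = {h : ℕ | 1 ≤ h} := by
  ext h
  constructor
  · exact fun hh => hh.1
  · intro hh
    refine ⟨hh, ?_⟩
    obtain ⟨n, rfl⟩ : ∃ n, h = n + 1 := ⟨h - 1, by change 1 ≤ h at hh; omega⟩
    apply Set.Subset.antisymm
    · intro x hx
      rw [Set.mem_iInter]
      intro q
      exact powSet_mono (Set.iInter_subset A q) _ hx
    · intro x hx
      exact iInter_powSet hC (antitone_of hA) n x hx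

/-! ## Sequences with a prescribed intersection -/

omit [Semigroup S] in
lemma asymp_of_infinite {A : ℕ → Set S} (hA : ∀ q, A (q + 1) ⊆ A q) (hinf : ∀ q, (A q).Infinite)
    (hfin : (⋂ q, A q).Finite) : AsympStrictlyDecreasing A := by
  refine ⟨hA, ?_⟩
  intro hcon
  obtain ⟨N, hN⟩ := hcon.bddAbove
  have hconst : ∀ m, A (N + 1 + m) = A (N + 1) := by
    intro m
    induction m with
    | zero => rfl
    | succ m ih =>
      rw [← ih]
      by_contra hne
      have := hN (show N + 1 + m ∈ {q | A (q + 1) ≠ A q} from hne)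
      omega
  apply hinf (N + 1)
  refine hfin.subset ?_
  intro s hs
  rw [Set.mem_iInter]
  intro q
  have h1 : s ∈ A (N + 1 + q) := by rw [hconst]; exact hs
  exact antitone_of hA (by omega) h1

lemma two_mem (h2 : Property2 S) {A : ℕ → Set S} (hA : AsympStrictlyDecreasing A) {x : S}
    (hx : ∀ q, x ∈ powSet (A q) 2) : x ∈ powSet (⋂ q, A q) 2 := by
  have h1 : intersectionSet A ∈ HStar S := ⟨A, hA, rfl⟩
  unfold Property2 at h2
  rw [h2, Set.mem_singleton_iff] at h1
  have h3 : (2 : ℕ) ∈ intersectionSet A := by
    rw [h1]; change 1 ≤ 2; norm_num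
  rw [h3.2, Set.mem_iInter]
  exact hx

lemma no_matching (h2 : Property2 S) {x : S} {a b : ℕ → S} (ha : Function.Injective a)
    (hb : Function.Injective b) (hab : ∀ n, a n * b n = x) : False := by
  let A : ℕ → Set S := fun q => {s | ∃ n, q ≤ n ∧ (s = a n ∨ s = b n)}
  have hA : ∀ q, A (q + 1) ⊆ A q := by
    rintro q s ⟨n, hn, hs⟩
    exact ⟨n, by omega, hs⟩
  have hempty : (⋂ q, A q) = ∅ := by
    rw [Set.eq_empty_iff_forall_notMem]
    intro s hs
    rw [Set.mem_iInter] at hs
    have hsub : {n | s = a n ∨ s = b n}.Infinite := by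
      rw [Set.infinite_iff_exists_gt]
      intro N
      obtain ⟨n, hn, hs'⟩ := hs (N + 1)
      exact ⟨n, hs', by omega⟩
    apply hsub
    have h1 : {n | s = a n}.Finite := by
      apply Set.Subsingleton.finite
      intro m hm n hn
      exact ha ((show s = a m from hm).symm.trans hn)
    have h1' : {n | s = b n}.Finite := by
      apply Set.Subsingleton.finite
      intro m hm n hn
      exact hb ((show s = b m from hm).symm.trans hn)
    exact (h1.union h1').subset fun n hn => hn
  have hinf : ∀ q, (A q).Infinite := by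
    intro q
    have h1 : (a '' {n | q ≤ n}).Infinite :=
      (Set.Ici_infinite q).image ha.injOn
    refine h1.mono ?_
    rintro _ ⟨n, hn, rfl⟩
    exact ⟨n, hn, Or.inl rfl⟩
  have hmem := two_mem h2 (asymp_of_infinite hA hinf (by rw [hempty]; exact Set.finite_empty))
    (x := x) (fun q => by
      rw [← hab q]
      exact powSet_mul (mem_powSet_one.mpr (show a q ∈ A q from ⟨q, le_rfl, Or.inl rfl⟩))
        (mem_powSet_one.mpr (show b q ∈ A q from ⟨q, le_rfl, Or.inr rfl⟩)))
  rw [hempty] at hmem
  obtain ⟨y, hy, b, hb, -⟩ := powSet_succ (n := 1) le_rfl hmem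
  exact hb

lemma adjoin_seq (h2 : Property2 S) {x c : S} {b : ℕ → S} (hb : Function.Injective b)
    (hx : ∀ (A : Set S) (q : ℕ), c ∈ A → b q ∈ A → x ∈ powSet A 2) : c * c = x := by
  let A : ℕ → Set S := fun q => {s | s = c ∨ ∃ n, q ≤ n ∧ s = b n}
  have hA : ∀ q, A (q + 1) ⊆ A q := by
    rintro q s (hs | ⟨n, hn, hs⟩)
    · exact Or.inl hs
    · exact Or.inr ⟨n, by omega, hs⟩
  have hinter : (⋂ q, A q) = {c} := by
    apply Set.Subset.antisymm
    · intro s hs
      rw [Set.mem_iInter] at hs
      by_contra hne
      have hsub : {n | s = b n}.Infinite := by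
        rw [Set.infinite_iff_exists_gt]
        intro N
        rcases hs (N + 1) with hs' | ⟨n, hn, hs'⟩
        · exact absurd hs' hne
        · exact ⟨n, hs', by omega⟩
      apply hsub
      apply Set.Subsingleton.finite
      intro m hm n hn
      exact hb ((show s = b m from hm).symm.trans hn)
    · rintro s hs
      rw [Set.mem_iInter]
      intro q
      exact Or.inl hs
  have hinf : ∀ q, (A q).Infinite := by
    intro q
    have h1 : (b '' {n | q ≤ n}).Infinite :=
      (Set.Ici_infinite q).image hb.injOn
    refine h1.mono ?_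
    rintro _ ⟨n, hn, rfl⟩
    exact Or.inr ⟨n, hn, rfl⟩
  have hmem := two_mem h2 (asymp_of_infinite hA hinf
    (by rw [hinter]; exact Set.finite_singleton c)) (x := x) (fun q =>
      hx (A q) q (Or.inl rfl) (Or.inr ⟨q, le_rfl, rfl⟩))
  rw [hinter] at hmem
  exact (powSet_two_singleton hmem).symm

lemma row_of_property2 (h2 : Property2 S) {c x : S} (h : {b : S | c * b = x}.Infinite) :
    c * c = x := by
  have : Infinite {b : S | c * b = x} := h.to_subtype
  let e := Infinite.natEmbedding {b : S | c * b = x}
  refine adjoin_seq h2 (b := fun n => (e n : S)) (fun m n hmn => e.injective (Subtype.ext hmn)) ?_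
  intro A q hc hb
  rw [← show c * (e q : S) = x from (e q).2]
  exact powSet_mul (mem_powSet_one.mpr hc) (mem_powSet_one.mpr hb)

lemma col_of_property2 (h2 : Property2 S) {c x : S} (h : {b : S | b * c = x}.Infinite) :
    c * c = x := by
  have : Infinite {b : S | b * c = x} := h.to_subtype
  let e := Infinite.natEmbedding {b : S | b * c = x}
  refine adjoin_seq h2 (b := fun n => (e n : S)) (fun m n hmn => e.injective (Subtype.ext hmn)) ?_
  intro A q hc hb
  rw [← show (e q : S) * c = x from (e q).2]
  exact powSet_mul (mem_powSet_one.mpr hb) (mem_powSet_one.mpr hc)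

lemma cond_of_property2 (h2 : Property2 S) : Cond S := by
  refine ⟨?_, ?_⟩
  · intro x
    by_contra hinf
    have : Infinite {c : S | c * c = x} := (show {c : S | c * c = x}.Infinite from hinf).to_subtype
    let e := Infinite.natEmbedding {c : S | c * c = x}
    exact no_matching h2 (x := x) (a := fun n => (e n : S)) (b := fun n => (e n : S))
      (fun m n hmn => e.injective (Subtype.ext hmn)) (fun m n hmn => e.injective (Subtype.ext hmn))
      (fun n => (e n).2)
  · intro x
    by_contra hinf
    have hinf' : {p : S × S | p.1 * p.2 = x ∧ p.1 * p.1 ≠ x ∧ p.2 * p.2 ≠ x}.Infinite := hinf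
    obtain ⟨f, hf1, hf2⟩ := exists_seq_of_forall_finset_exists
      (fun p : S × S => p.1 * p.2 = x ∧ p.1 * p.1 ≠ x ∧ p.2 * p.2 ≠ x)
      (fun p p' => p.1 ≠ p'.1 ∧ p.2 ≠ p'.2) (by
        intro s hs
        by_contra hcon
        push Not at hcon
        apply hinf'
        have hfin : (⋃ p ∈ (s : Set (S × S)),
            ((fun b => (p.1, b)) '' {b : S | p.1 * b = x}) ∪
            ((fun a => (a, p.2)) '' {a : S | a * p.2 = x})).Finite := by
          refine s.finite_toSet.biUnion ?_
          intro p hp
          have hp' := hs p hp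
          refine Set.Finite.union (Set.Finite.image _ ?_) (Set.Finite.image _ ?_)
          · by_contra hh
            exact hp'.2.1 (row_of_property2 h2 hh)
          · by_contra hh
            exact hp'.2.2 (col_of_property2 h2 hh)
        refine hfin.subset ?_
        rintro ⟨a, b⟩ hp
        obtain ⟨p, hps, hp2⟩ := hcon (a, b) hp
        simp only [Set.mem_iUnion]
        refine ⟨p, hps, ?_⟩
        by_cases h1 : p.1 = a
        · left
          refine ⟨b, ?_, by rw [h1]⟩
          change p.1 * b = x
          rw [h1]; exact hp.1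
        · right
          have h3 : p.2 = b := hp2 h1
          refine ⟨a, ?_, by rw [h3]⟩
          change a * p.2 = x
          rw [h3]; exact hp.1)
    have hinj1 : Function.Injective fun n => (f n).1 := by
      intro m n hmn
      by_contra hne
      rcases lt_or_gt_of_ne hne with h | h
      · exact (hf2 m n h).1 hmn
      · exact (hf2 n m h).1 hmn.symm
    have hinj2 : Function.Injective fun n => (f n).2 := by
      intro m n hmn
      by_contra hne
      rcases lt_or_gt_of_ne hne with h | h
      · exact (hf2 m n h).2 hmn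
      · exact (hf2 n m h).2 hmn.symm
    exact no_matching h2 hinj1 hinj2 (fun n => (hf1 n).1)

/-! ## Property 1 -/

lemma tuples_finite (h : ∀ x : S, {p : S × S | p.1 * p.2 = x}.Finite) :
    ∀ (n : ℕ) (x : S), (tuples (n + 1) x).Finite := by
  intro n
  induction n with
  | zero =>
    intro x
    apply Set.Subsingleton.finite
    intro a ha b hb
    have ha' : a 0 = x := by simpa [tuples] using ha
    have hb' : b 0 = x := by simpa [tuples] using hb
    funext i
    rw [Fin.fin_one_eq_zero i]
    exact ha'.trans hb'.symm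
  | succ n ih =>
    intro x
    have hfin : (⋃ p ∈ {p : S × S | p.1 * p.2 = x},
        (fun t : Fin (n + 1) → S => (Fin.cons p.1 t : Fin (n + 1 + 1) → S)) ''
          tuples (n + 1) p.2).Finite :=
      (h x).biUnion fun p _ => (ih p.2).image _
    refine hfin.subset ?_
    intro a ha
    unfold tuples at ha
    rw [Set.mem_ofPred_eq, List.ofFn_succ, List.prod_cons] at ha
    have hne : (List.ofFn fun i : Fin (n + 1) => a i.succ) ≠ [] := by
      intro h0
      have := congrArg List.length h0
      simp at this
    obtain ⟨y, hy⟩ := lprod_eq_coe hne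
    have hy' : (List.ofFn fun i : Fin (n + 1) => ((a i.succ : S) : WithOne S)).prod
        = (y : WithOne S) := by
      rw [← hy, lprod, List.map_ofFn]
      rfl
    rw [hy', ← WithOne.coe_mul, WithOne.coe_inj] at ha
    simp only [Set.mem_iUnion]
    refine ⟨(a 0, y), ha, fun i => a i.succ, hy', ?_⟩
    funext i
    refine Fin.cases ?_ (fun j => ?_) i
    · simp
    · simp

lemma tuples_infinite_of_row {e : S} (he : e * e = e) (h : {b : S | e * b = e}.Infinite) (n : ℕ) :
    (tuples (n + 2) e).Infinite := by
  have hprod : ∀ b : S, e * b = e →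
      (fun i : Fin (n + 1 + 1) => (Fin.snoc (fun _ : Fin (n + 1) => e) b : Fin (n + 1 + 1) → S) i)
        ∈ tuples (n + 2) e := by
    intro b hb
    unfold tuples
    rw [Set.mem_ofPred_eq, List.ofFn_succ']
    simp only [Fin.snoc_castSucc, Fin.snoc_last, List.concat_eq_append, List.prod_append,
      List.prod_cons, List.prod_nil, mul_one]
    have : ∀ m : ℕ, (List.ofFn fun _ : Fin (m + 1) => ((e : S) : WithOne S)).prod = (e : S) := by
      intro m
      induction m with
      | zero => simp
      | succ m ih =>
        rw [List.ofFn_succ, List.prod_cons, ih, ← WithOne.coe_mul, he]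
    rw [this n, ← WithOne.coe_mul, hb]
  refine (Set.Infinite.image (f := fun b : S =>
    (Fin.snoc (fun _ : Fin (n + 1) => e) b : Fin (n + 1 + 1) → S)) ?_ h).mono ?_
  · intro b _ b' _ hbb
    have := congrFun hbb (Fin.last (n + 1))
    simpa using this
  · rintro _ ⟨b, hb, rfl⟩
    exact hprod b hb

lemma tuples_infinite_of_col {e : S} (he : e * e = e) (h : {b : S | b * e = e}.Infinite) (n : ℕ) :
    (tuples (n + 2) e).Infinite := by
  have hprod : ∀ b : S, b * e = e →
      (Fin.cons b (fun _ : Fin (n + 1) => e) : Fin (n + 1 + 1) → S) ∈ tuples (n + 2) e := by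
    intro b hb
    unfold tuples
    rw [Set.mem_ofPred_eq, List.ofFn_succ]
    simp only [Fin.cons_zero, Fin.cons_succ, List.prod_cons]
    have : ∀ m : ℕ, (List.ofFn fun _ : Fin (m + 1) => ((e : S) : WithOne S)).prod = (e : S) := by
      intro m
      induction m with
      | zero => simp
      | succ m ih =>
        rw [List.ofFn_succ, List.prod_cons, ih, ← WithOne.coe_mul, he]
    rw [this n, ← WithOne.coe_mul, hb]
  refine (Set.Infinite.image (f := fun b : S =>
    (Fin.cons b (fun _ : Fin (n + 1) => e) : Fin (n + 1 + 1) → S)) ?_ h).mono ?_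
  · intro b _ b' _ hbb
    have := congrFun hbb 0
    simpa using this
  · rintro _ ⟨b, hb, rfl⟩
    exact hprod b hb

/-- Under the finiteness conditions an element with infinitely many factorisations is idempotent
and absorbs infinitely many elements on one side. -/
lemma singular (hC : Cond S) {x : S} (h : {p : S × S | p.1 * p.2 = x}.Infinite) :
    x * x = x ∧ ({b : S | x * b = x}.Infinite ∨ {b : S | b * x = x}.Infinite) := by
  have key : (∃ c, {b : S | c * b = x}.Infinite) ∨ (∃ c, {b : S | b * c = x}.Infinite) := by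
    by_contra hcon
    push Not at hcon
    apply h
    have hfin : ({p : S × S | p.1 * p.2 = x ∧ p.1 * p.1 ≠ x ∧ p.2 * p.2 ≠ x} ∪
        ((⋃ c ∈ {c : S | c * c = x}, (fun b => (c, b)) '' {b : S | c * b = x}) ∪
        (⋃ c ∈ {c : S | c * c = x}, (fun b => (b, c)) '' {b : S | b * c = x}))).Finite := by
      refine (hC.2 x).union (Set.Finite.union ?_ ?_)
      · exact (hC.1 x).biUnion fun c _ => (hcon.1 c).image _
      · exact (hC.1 x).biUnion fun c _ => (hcon.2 c).image _
    refine hfin.subset ?_
    rintro ⟨a, b⟩ hab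
    by_cases h1 : a * a = x
    · right; left
      simp only [Set.mem_iUnion]
      exact ⟨a, h1, b, hab, rfl⟩
    · by_cases h2 : b * b = x
      · right; right
        simp only [Set.mem_iUnion]
        exact ⟨b, h2, a, hab, rfl⟩
      · left
        exact ⟨hab, h1, h2⟩
  rcases key with ⟨c, hc⟩ | ⟨c, hc⟩
  · have h1 := row hC hc
    have h2 := row_cube hC hc
    have h3 : x * x = x := by
      rw [← h1, ← mul_assoc, h2, h2]
    refine ⟨h3, Or.inl (hc.mono ?_)⟩
    intro b hb
    change c * b = x at hb
    change x * b = x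
    rw [← h1] at hb ⊢
    rw [mul_assoc, hb, ← mul_assoc, h2]
  · have h1 := col hC hc
    have h2 := col_cube hC hc
    have h3 : x * x = x := by
      rw [← h1, ← mul_assoc, h2, h2]
    refine ⟨h3, Or.inr (hc.mono ?_)⟩
    intro b hb
    change b * c = x at hb
    change b * x = x
    rw [← h1] at hb ⊢
    rw [← mul_assoc, hb, h2]

/-- The characterisation. -/
theorem main (S : Type u) [Semigroup S] : (Property1 S ∧ Property2 S) ↔
    ((∀ x : S, {c : S | c * c = x}.Finite) ∧
     (∀ x : S, {p : S × S | p.1 * p.2 = x ∧ p.1 * p.1 ≠ x ∧ p.2 * p.2 ≠ x}.Finite) ∧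
     ∃ x : S, {p : S × S | p.1 * p.2 = x}.Infinite) := by
  constructor
  · rintro ⟨⟨h₀, hpos, h1⟩, h2⟩
    have hC := cond_of_property2 h2
    refine ⟨hC.1, hC.2, ?_⟩
    by_contra hcon
    push Not at hcon
    obtain ⟨x, hx⟩ := h1 h₀ le_rfl
    obtain ⟨n, rfl⟩ : ∃ n, h₀ = n + 1 := ⟨h₀ - 1, by omega⟩
    exact hx (tuples_finite hcon n x)
  · rintro ⟨hα, hβ, x, hx⟩
    have hC : Cond S := ⟨hα, hβ⟩
    obtain ⟨he, hinf⟩ := singular hC hx
    refine ⟨⟨2, by norm_num, ?_⟩, ?_⟩
    · intro h hh
      obtain ⟨n, rfl⟩ : ∃ n, h = n + 2 := ⟨h - 2, by omega⟩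
      refine ⟨x, ?_⟩
      rcases hinf with hinf | hinf
      · exact tuples_infinite_of_row he hinf n
      · exact tuples_infinite_of_col he hinf n
    · unfold Property2
      ext H
      rw [Set.mem_singleton_iff]
      constructor
      · rintro ⟨A, hA, rfl⟩
        exact intersectionSet_eq hC hA.1
      · rintro rfl
        have hSinf : Infinite S := by
          rcases hinf with hinf | hinf
          · have := hinf.to_subtype
            exact Infinite.of_injective (fun b : {b : S | x * b = x} => (b : S))
              Subtype.val_injective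
          · have := hinf.to_subtype
            exact Infinite.of_injective (fun b : {b : S | b * x = x} => (b : S))
              Subtype.val_injective
        let f := Infinite.natEmbedding S
        let A : ℕ → Set S := fun q => f '' {n | q ≤ n}
        have hA : ∀ q, A (q + 1) ⊆ A q := by
          rintro q _ ⟨n, hn, rfl⟩
          exact ⟨n, by change q ≤ n; change q + 1 ≤ n at hn; omega, rfl⟩
        refine ⟨A, asymp_of_infinite hA ?_ ?_, intersectionSet_eq hC hA⟩
        · intro q
          exact (Set.Ici_infinite q).image f.injective.injOn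
        · have : (⋂ q, A q) = ∅ := by
            rw [Set.eq_empty_iff_forall_notMem]
            intro s hs
            rw [Set.mem_iInter] at hs
            obtain ⟨n, -, hn⟩ := hs 0
            obtain ⟨m, hm, hm'⟩ := hs (n + 1)
            have := f.injective (hn.trans hm'.symm)
            change n + 1 ≤ m at hm
            omega
          rw [this]
          exact Set.finite_empty

end Pool.Agent.Helper58.SemigroupH
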