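import Mathlib
import Pool.Agent.Helper58.SemigroupH.Proof

set_option autoImplicit false

/-! # Sanity checks: the class of semigroups with Properties 1 and 2 is not empty -/

namespace Pool.Agent.Helper58.SemigroupH

/-- The integers under multiplication have Properties 1 and 2. -/
theorem int_mul : Property1 ℤ ∧ Property2 ℤ := by
  rw [main]
  refine ⟨?_, ?_, 0, ?_⟩
  · intro x
    refine (Set.finite_Icc (-(x.natAbs : ℤ)) (x.natAbs : ℤ)).subset ?_
    intro c hc
    change c * c = x at hc
    have h1 : (c.natAbs : ℤ) * c.natAbs = x.natAbs := by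
      rw [← hc, Int.natAbs_mul]; push_cast; ring
    have h2 : c.natAbs ≤ x.natAbs := by
      have : c.natAbs * c.natAbs = x.natAbs := by exact_mod_cast h1
      nlinarith [Nat.le_mul_self c.natAbs]
    rw [Set.mem_Icc]
    omega
  · intro x
    by_cases hx : x = 0
    · subst hx
      refine Set.finite_empty.subset ?_
      rintro ⟨a, b⟩ ⟨h1, h2, h3⟩
      rcases mul_eq_zero.mp h1 with h | h
      · exact absurd (by simp [show a = 0 from h]) h2
      · exact absurd (by simp [show b = 0 from h]) h3
    · have hfin : (Set.Icc (-(x.natAbs : ℤ)) (x.natAbs : ℤ) ×ˢ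
          Set.Icc (-(x.natAbs : ℤ)) (x.natAbs : ℤ)).Finite :=
        (Set.finite_Icc _ _).prod (Set.finite_Icc _ _)
      refine hfin.subset ?_
      rintro ⟨a, b⟩ ⟨h1, -, -⟩
      change a * b = x at h1
      have ha : a.natAbs ∣ x.natAbs := Int.natAbs_dvd_natAbs.mpr ⟨b, h1.symm⟩
      have hb : b.natAbs ∣ x.natAbs := Int.natAbs_dvd_natAbs.mpr ⟨a, by rw [mul_comm]; exact h1.symm⟩
      have hpos : 0 < x.natAbs := Int.natAbs_pos.mpr hx
      have ha' := Nat.le_of_dvd hpos ha
      have hb' := Nat.le_of_dvd hpos hb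
      simp only [Set.mem_prod, Set.mem_Icc]
      omega
  · refine (Set.infinite_range_of_injective (f := fun n : ℤ => ((0 : ℤ), n)) ?_).mono ?_
    · intro a b h
      exact (Prod.mk.inj h).2
    · rintro _ ⟨n, rfl⟩
      simp

end Pool.Agent.Helper58.SemigroupH
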